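import Pool.Agent.Lib.DR.D.D10
import Pool.Agent.Lib.DS.E.AllA

/-!
# Theorem DR, part E: inertia above `2`; `S_R2`, `S_D10` (assembly, author helper39)

`S_SS` (supersingular reduction above `2`) from `S_R2a` and `S_Ru` (the quotients of the framings are units); `S_E4a`, `S_E4b`,
`S_R2`, `S_D10` from `S_SS` and the statements of `DS`.
-/

set_option autoImplicit false

open scoped Pointwise nonZeroDivisors

noncomputable section

namespace Pool.Agent.DR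

open Pool.Agent.MuZ Pool.Agent.FW NumberField IsDedekindDomain Pool.Agent.DN
open Pool.Agent.DI (io ofC io_inj exists_io io_ofC ofC_io VP MP UP TP ex)

/-- The quotients of the framings are units above `2` (part of `S_D2`). -/
def S_Ru : Prop :=
  ∀ (n t : ℕ) [Rmf n t] (P : Ideal ZZ), Ab2 P → ∀ b : Ideal (OO n t), G15 b →
    ∀ a : Ideal (OO n t), a ≠ ⊥ → PrI a 2 → PrI a 15 → UP P (rO b (a * b))

theorem sSS (hX : DS.S_XOm) (hR : S_R2a) (hU : S_Ru) : S_SS := by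
  intro n t _ P hP
  have := hP.1.1
  obtain ⟨hQ, ha⟩ := hR n t P hP
  refine ⟨hP, hQ, ha, fun b hb z hz hzK => ?_, fun b hb a h1 h2 h3 => hU n t P hP b hb a h1 h2 h3⟩
  obtain ⟨hB, hA, -⟩ := hQ.2 b hb
  have hl : z ∉ Lam b := fun h => hzK ⟨hz, Or.inl h⟩
  have hV : VP P (xO b z) := by
    by_contra h
    exact hzK ⟨hz, Or.inr h⟩
  have hcrv := (hX n t b hb).crv z hz hl
  have hM : MP P (vO b z ^ 2 - a3O b ^ 2) := by
    have e : vO b z ^ 2 - a3O b ^ 2 = 2 * (2 * xO b z ^ 3) + a1O b * (xO b z * (a1O b * xO b z + 2 * a3O b)) := by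
      linear_combination hcrv
    rw [e]
    have h2V : VP P (2 : Om) := by simpa using DI.VP.nat (P := P) 2
    exact (DI.MP.mul_right hP.2 (h2V.mul (hV.pow 3))).add
      (DI.MP.mul_right (ha b hb) (hV.mul ((hB.mul hV).add (h2V.mul hA.1))))
  have hWV : VP P (vO b z) := by
    refine DI.VP.of_pow (n := 2) two_pos ?_
    have e : vO b z ^ 2 = (vO b z ^ 2 - a3O b ^ 2) + a3O b ^ 2 := by ring
    rw [e]
    exact hM.vp.add (hA.1.pow 2)
  refine DI.MP.of_pow (n := 2) ?_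
  have e : (vO b z - a3O b) ^ 2 = (vO b z ^ 2 - a3O b ^ 2) - 2 * (a3O b * (vO b z - a3O b)) := by ring
  rw [e]
  exact hM.sub (DI.MP.mul_right hP.2 (hA.1.mul (hWV.sub hA.1)))

/-- **Inertia above `2`.** -/
theorem kE4a (h : DS.S_E4a) (hS : S_SS) : S_E4a := fun n t _ P hP τ h1 h2 N h3 h4 =>
  h n t P (hS n t P hP) τ h1 h2 N h3 h4

/-- Inertia and the torsion prime to `Q`, `Q` not above `2`. -/
def S_E4b : Prop :=
  ∀ (n t : ℕ) [Rmf n t] (Q : Ideal ZZ), Npr Q → ¬ MP Q 2 → ∀ τ ∈ GK n t, τ ∈ Q.inertia Gal(Om/ℚ) →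
    ∀ (v : OO n t) (b δ : Ideal (OO n t)) (N : ℕ), 0 < N → 30 ∣ N → G15 b → δ ≠ ⊥ →
      sp (N : OO n t) ≤ δ → ¬ Abv Q δ → (2 : OO n t) ∣ v - 1 → Psi τ N (sp v) →
      ∀ z ∈ Lam (δ * b), wpC b (toC v * z) = wpC b z

theorem kE4b (h : DS.S_E4b) : S_E4b := fun n t _ => h n t

section

variable (r1 : DS.S_R1) (gq : DS.S_GQB) (d1 : DS.S_D1) (d3 : DS.S_D3) (hO4 : S_O4) (hL6 : S_L6)
  (hR : S_R2a) (hU : S_Ru)

include r1 gq d1 d3 hR hU in
/-- Inertia above `2`, from the statements of `DS`, `S_R2a`, `S_Ru`. -/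
theorem lE4a : S_E4a := kE4a (DS.bE4a r1 gq d1 d3) (sSS (DS.bXOm r1) hR hU)

include r1 gq d1 d3 hL6 hR hU in
theorem lR2b : S_R2b :=
  sR2b (DS.bXOm r1) (DS.bE1 r1 gq d1 d3) (lE4a r1 gq d1 d3 hR hU) hL6 hR

include r1 gq d1 d3 hL6 hR hU in
theorem lR2 : S_R2 := sR2 gq hR (lR2b r1 gq d1 d3 hL6 hR hU)

include r1 gq d1 d3 hO4 hL6 hR hU in
theorem lD10 : S_D10 :=
  sD10 hO4 hL6 (DS.bXOm r1) d1 (DS.bE1 r1 gq d1 d3) (lE4a r1 gq d1 d3 hR hU)
    (lR2b r1 gq d1 d3 hL6 hR hU) (sSS (DS.bXOm r1) hR hU)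

end

end Pool.Agent.DR
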