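import Pool.Agent.Lib.DR.D.All
import Pool.Agent.Lib.DR.D.R2a
import Pool.Agent.Lib.DR.E.AllA
import Pool.Agent.Lib.DS.E.AllZ

/-!
# Theorem DR, part E, `S_R2`, `S_D10`: complete, no hypotheses (helper39)
-/

set_option autoImplicit false

noncomputable section

namespace Pool.Agent.DR

open Pool.Agent.DN

theorem dR2a : S_R2a := sR2a DS.zR1
theorem dRu : S_Ru := sRu DS.zR1
theorem dSS : S_SS := sSS DS.zXOm dR2a dRu
theorem dE1 : S_E1 := bE1 DS.zE1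
theorem dE2 : S_E2 := bE2 DS.zE2
theorem dE4a : S_E4a := kE4a DS.zE4a dSS
theorem dE4b : S_E4b := kE4b DS.zE4b
theorem dR2b : S_R2b := lR2b DS.zR1 DS.zGQB DS.zD1 DS.yD3 dL6 dR2a dRu
theorem dR2 : S_R2 := lR2 DS.zR1 DS.zGQB DS.zD1 DS.yD3 dL6 dR2a dRu
theorem dD10 : S_D10 := lD10 DS.zR1 DS.zGQB DS.zD1 DS.yD3 dO4 dL6 dR2a dRu
theorem dE6 : S_E6 := bE6 DS.zE6
theorem dE7 : S_E7 := bE7 DS.zE7
theorem dE8 : S_E8 := bE8 DS.zE8
theorem dE9 : S_E9 := cE9 DS.zR1 DS.zE1 dE4a dO4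
theorem dE10 : S_E10 := bE10 DS.zE10
theorem dE11 : S_E11 := cE11 DS.zR1 DS.zE1 DS.zE10

end Pool.Agent.DR
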