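import Pool.Agent.Lib.DR.Iface
import Pool.Agent.Lib.DS.E.AllB
import Pool.Agent.Lib.DS.E.PsC

/-!
# Theorem DR, part E, second half (author helper28)

`S_E1`, `S_E2`, `S_E6`, `S_E7`, `S_E8`, `S_E10`, `S_E11` are instances of the statements of `DS` (all imaginary quadratic fields);
`S_E9`: the inertia elements in `Gal(Om/K)` at the primes above `2` fix `L'`.
-/

set_option autoImplicit false

open scoped Pointwise nonZeroDivisors

noncomputable section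

namespace Pool.Agent.DR

open Pool.Agent.MuZ Pool.Agent.FW NumberField IsDedekindDomain Pool.Agent.DN Pool.Agent.DN.Eb
open Pool.Agent.DI (io ofC io_inj exists_io io_ofC ofC_io VP MP UP TP ex sqr sqr_sq kap)

/-- Inertia above `2`. -/
def S_E4a : Prop :=
  ∀ (n t : ℕ) [Rmf n t] (P : Ideal ZZ), Ab2 P → ∀ τ ∈ GK n t, τ ∈ P.inertia Gal(Om/ℚ) →
    ∀ N : ℕ, Odd N → 15 ∣ N → Psi τ N (⊤ : Ideal (OO n t))

/-- `L'` is unramified over `K` above `2`. -/
def S_Tam : Prop :=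
  ∀ (n t : ℕ) [Rmf n t] (f : ℕ), Odd f → 15 ∣ f → ∀ P : Ideal ZZ, Ab2 P →
    ∀ τ ∈ P.inertia Gal(Om/ℚ), τ ∈ GK n t → ∀ x ∈ Mf n t f, τ x = x

theorem tTam (h1 : DS.S_E1) (h4 : S_E4a) (hO4 : S_O4) : S_Tam := by
  intro n t _ f hf h15 P hP τ hτ hG x hx
  have hf0 : 0 < f := hf.pos
  have h2f : 0 < 2 * f := Nat.mul_pos two_pos hf0
  have h15' : 15 ∣ 2 * f := h15.mul_left 2
  have hPf : Psi τ f (⊤ : Ideal (OO n t)) := h4 n t P hP τ hG hτ f hf h15
  obtain ⟨a, ha⟩ := (h1 n t (2 * f) h2f h15').1 τ hG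
  have haf : Psi τ f a := psi_level ha (dvd_mul_left f 2)
  obtain ⟨α, α', hα0, hα'0, hcα, -, hd, he⟩ := (h1 n t f hf0 h15).2.1 τ a ⊤ haf hPf
  rw [Ideal.mul_top] at he
  have hm : α' ∈ sp α * a := by
    rw [he]
    exact Ideal.mem_span_singleton_self α'
  obtain ⟨y, -, hy⟩ := Ideal.mem_span_singleton_mul.1 hm
  have hay : a = sp y := by
    rw [← hy] at he
    have h5 : sp α * a = sp α * sp y := by
      rw [he]
      exact (Ideal.span_singleton_mul_span_singleton α y).symm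
    exact (Ideal.span_singleton_mul_right_inj hα0).1 h5
  have hy0 : y ≠ 0 := by
    rintro rfl
    exact hα'0 (by rw [← hy, mul_zero])
  have hfy : (f : OO n t) ∣ y - 1 := by
    obtain ⟨β, -, hβ⟩ := cop_inv hcα
    have h6 : y - 1 = -β * (α - α') - (α * β - 1) * (y - 1) := by
      rw [← hy]
      ring
    rw [h6]
    exact dvd_sub (hd.mul_left _) (hβ.mul_right _)
  have hfy2 : (f : OO n t) ∣ y ^ 2 - 1 := by
    have h7 : y ^ 2 - 1 = (y - 1) * (y + 1) := by ring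
    rw [h7]
    exact hfy.mul_right _
  have hcy2f : Cop y (2 * f) := by
    refine ((aO6 n t).2.2.2.1 (2 * f) y h2f).1 ?_
    rw [← hay]
    exact psi_pri ha
  have hcy : Cop y 2 := cop_dvd hcy2f (dvd_mul_right 2 f)
  have h2y2 : (2 : OO n t) ∣ y ^ 2 - 1 := (hO4 n t).2.2.2.2.2.2.2.2.2.2.2.1 y hcy
  have hcop : IsCoprime (2 : OO n t) (f : OO n t) := by
    obtain ⟨j, hj⟩ := hf
    refine ⟨-(j : OO n t), 1, ?_⟩
    rw [hj]
    push_cast
    ring
  have h2fy : ((2 * f : ℕ) : OO n t) ∣ y ^ 2 - 1 := by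
    push_cast
    exact hcop.mul_dvd h2y2 hfy2
  have hHP : HP f a := ⟨y, hy0, ⟨hcy2f, 1, by rwa [pow_one]⟩, by rw [hay]; exact (aO7 n t (2 * f) h2f).1 _⟩
  exact hx τ hG a ha hHP

/-! ## The statements of `DR/Iface.lean` -/

theorem bR1 (h : DS.S_R1) : S_R1 := by
  obtain ⟨h1, c, hc, h2⟩ := h
  exact ⟨fun n t _ => h1 n t, c, hc, fun n t _ => h2 n t⟩

theorem bE1 (h : DS.S_E1) : S_E1 := fun n t _ => h n t

theorem bE2 (h : DS.S_E2) : S_E2 := fun n t _ => h n t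

theorem bE6 (h : DS.S_E6) : S_E6 := fun n t _ => h n t

theorem bE7 (h : DS.S_E7) : S_E7 := fun n t _ => h n t

theorem bE8 (h : DS.S_E8) : S_E8 := fun n t _ => h n t

theorem bE9 (h : DS.S_E9) (hT : S_Tam) : S_E9 := by
  intro n t _ f hf h15
  obtain ⟨a, b, c, d, e, g⟩ := h n t f hf.pos h15
  exact ⟨a, b, c, d, hT n t f hf h15, e, g⟩

theorem bE10 (h : DS.S_E10) : S_E10 := fun n t _ => h n t

theorem bE11 (h : DS.Eb.S_E11) : S_E11 := fun n t _ => h n t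

/-- `S_E9` and `S_E11` from the statements of `DS`. -/
theorem cE9 (hR1 : DS.S_R1) (h1 : DS.S_E1) (h4 : S_E4a) (hO4 : S_O4) : S_E9 :=
  bE9 (DS.Eb.bE9 h1 hR1) (tTam h1 h4 hO4)

theorem cE11 (hR1 : DS.S_R1) (h1 : DS.S_E1) (h10 : DS.S_E10) : S_E11 :=
  bE11 (DS.Eb.tE11 hR1 (DS.Eb.bCj h1 hR1) h1 h10)

end Pool.Agent.DR
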