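import Pool.Agent.Lib.DN.E.All
import Pool.Agent.Lib.DR.Defs

/-!
# Theorem DR, part E: the elements fixed by the inertia elements of `Gal(Om/K)` have valuation at least `1/2` (author helper39)

`2` is ramified. `Fx n t P x`: `x` is fixed by all elements of `P.inertia` in `Gal(Om/K)`. `half`: if `x` is in the maximal ideal then
`x ^ 2 / 2` is integral at `P`.
-/

set_option autoImplicit false

open scoped Pointwise nonZeroDivisors

noncomputable section

namespace Pool.Agent.DR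

open Pool.Agent.MuZ Pool.Agent.FW NumberField IsDedekindDomain Pool.Agent.DN
open Pool.Agent.DI (io ofC io_inj exists_io io_ofC ofC_io VP MP UP TP ex)

/-- `x` is fixed by the inertia elements which are in `Gal(Om/K)`. -/
def Fx (n t : ℕ) (P : Ideal ZZ) (x : Om) : Prop :=
  ∀ τ ∈ P.inertia Gal(Om/ℚ), τ ∈ GK n t → τ x = x

section

variable {n t : ℕ} {P : Ideal ZZ}

theorem Fx.add {x y : Om} (hx : Fx n t P x) (hy : Fx n t P y) : Fx n t P (x + y) := fun τ h1 h2 => by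
  rw [map_add, hx τ h1 h2, hy τ h1 h2]

theorem Fx.mul {x y : Om} (hx : Fx n t P x) (hy : Fx n t P y) : Fx n t P (x * y) := fun τ h1 h2 => by
  rw [map_mul, hx τ h1 h2, hy τ h1 h2]

theorem Fx.pow {x : Om} (hx : Fx n t P x) (j : ℕ) : Fx n t P (x ^ j) := fun τ h1 h2 => by
  rw [map_pow, hx τ h1 h2]

theorem Fx.nat (j : ℕ) : Fx n t P (j : Om) := fun τ _ _ => map_natCast τ j

theorem Fx.two : Fx n t P 2 := fun τ _ _ => map_ofNat τ 2

theorem Fx.neg {x : Om} (hx : Fx n t P x) : Fx n t P (-x) := fun τ h1 h2 => by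
  rw [map_neg, hx τ h1 h2]

theorem Fx.inv {x : Om} (hx : Fx n t P x) : Fx n t P x⁻¹ := fun τ h1 h2 => by
  rw [map_inv₀, hx τ h1 h2]

theorem Fx.div {x y : Om} (hx : Fx n t P x) (hy : Fx n t P y) : Fx n t P (x / y) := fun τ h1 h2 => by
  rw [map_div₀, hx τ h1 h2, hy τ h1 h2]

end

section

variable {n t : ℕ} [hR : Rmf n t]

/-- `n = 2 m + ε`, `m + ε` odd. -/
theorem n_form (n t : ℕ) [hR : Rmf n t] : ∃ m ε : ℕ, n = 2 * m + ε ∧ ε = n % 2 ∧ (m + ε) % 2 = 1 := by
  have ht := hR.zero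
  rcases hR.out with ⟨h1, -⟩ | ⟨-, hn0, hsq, hn3⟩
  · omega
  · refine ⟨n / 2, n % 2, by omega, rfl, ?_⟩
    have h4 : n % 4 ≠ 0 := by
      intro h
      have h5 : 2 * 2 ∣ n := Nat.dvd_of_mod_eq_zero (by simpa using h)
      have h6 := hsq 2 h5
      rw [Nat.isUnit_iff] at h6
      omega
    omega

theorem wO_sq' : wO n t ^ 2 = -(n : Om) := by
  have h := wO_sq (n := n) (t := t)
  have ht : (t : Om) = 0 := by
    rw [hR.zero]
    exact Nat.cast_zero
  rw [h, ht]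
  ring

/-- An element outside of `Gal(Om/K)` maps `wO` to `-wO`. -/
theorem not_GK {τ : Gal(Om/ℚ)} (h : τ ∉ GK n t) : τ (wO n t) = -wO n t := by
  have h1 := congrArg τ (wO_sq' (n := n) (t := t))
  rw [map_pow, map_neg, map_natCast, ← wO_sq' (n := n) (t := t)] at h1
  rcases sq_eq_sq_iff_eq_or_eq_neg.1 h1 with h2 | h2
  · exact absurd (mem_GK_iff.2 h2) h
  · exact h2

/-- The uniformizer `pO` and its norm. -/
theorem pO_facts {P : Ideal ZZ} (hP : Ab2 P) : ∃ (x : Om) (j : ℕ), j % 2 = 1 ∧ MP P x ∧ MP P (2 * j - x * x) ∧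
    (∃ ε : ℕ, x * (2 * ε - x) = 2 * j) ∧ (∀ τ ∈ GK n t, τ x = x) := by
  have := hP.1.1
  obtain ⟨m, ε, hn, he, hm⟩ := n_form n t
  have hw := wO_sq' (n := n) (t := t)
  have hV : VP P (wO n t) := by
    have h := toO_VP (P := P) (wI n t)
    rwa [toO_wI] at h
  have hn' : (n : Om) = 2 * m + ε := by exact_mod_cast congrArg (fun k : ℕ => (k : Om)) hn
  have hee : (ε : Om) ^ 2 = ε := by
    have : ε = 0 ∨ ε = 1 := by omega
    rcases this with h | h <;> rw [h] <;> norm_num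
  have hx2 : MP P ((ε + wO n t) ^ 2) := by
    have e : ((ε : Om) + wO n t) ^ 2 = 2 * (ε * wO n t - m) := by
      linear_combination hw + hee - hn'
    rw [e]
    exact DI.MP.mul_right hP.2 (((DI.VP.nat ε).mul hV).sub (DI.VP.nat m))
  refine ⟨ε + wO n t, m + ε, hm, DI.MP.of_pow hx2, ?_, ⟨ε, ?_⟩, ?_⟩
  · refine DI.MP.sub (DI.MP.mul_right hP.2 (DI.VP.nat _)) ?_
    rwa [← pow_two]
  · push_cast
    linear_combination (-1 : Om) * hw + hee + hn'
  · intro τ hτ
    rw [map_add, map_natCast, mem_GK_iff.1 hτ]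

/-- There is an inertia element outside of `Gal(Om/K)`. -/
theorem exists_sig {P : Ideal ZZ} (hP : Ab2 P) : ∃ σ ∈ P.inertia Gal(Om/ℚ), σ ∉ GK n t := by
  have := hP.1.1
  by_contra hcon
  push Not at hcon
  obtain ⟨x, j, hj, hx, -, ⟨ε, hε⟩, hfx⟩ := pO_facts (n := n) (t := t) hP
  have h2 : MP P ((2 : ℕ) : Om) := by
    rw [Nat.cast_ofNat]
    exact hP.2
  obtain ⟨y, hy, hxy⟩ := aUnI P 2 hP.1 Nat.prime_two h2 x (fun τ hτ => hfx τ (hcon τ hτ)) hx
  rw [Nat.cast_ofNat] at hxy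
  have h3 : MP P (2 * (ε : Om) - x) := DI.MP.sub (DI.MP.mul_right hP.2 (DI.VP.nat ε)) hx
  have h4 : (j : Om) = y * (2 * ε - x) := by
    have h5 : (2 : Om) * j = 2 * (y * (2 * ε - x)) := by
      rw [← hε]
      nth_rewrite 1 [hxy]
      ring
    exact mul_left_cancel₀ two_ne_zero h5
  have h5 : MP P (j : Om) := by
    rw [h4]
    exact DI.MP.mul_left hy h3
  have h6 : (1 : Om) = j - 2 * ((j / 2 : ℕ) : Om) := by
    have h7 : (j : Om) = ((2 * (j / 2) + 1 : ℕ) : Om) := by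
      congr 1
      omega
    rw [h7]
    push_cast
    ring
  have h8 : MP P (1 : Om) := by
    rw [h6]
    exact DI.MP.sub h5 (DI.MP.mul_right hP.2 (DI.VP.nat _))
  exact DI.MP.one_not h8

/-- **The elements of the maximal ideal which are fixed by the inertia elements of `Gal(Om/K)` have valuation at least
`1/2`.** -/
theorem half {P : Ideal ZZ} (hP : Ab2 P) {x : Om} (hf : Fx n t P x) (hx : MP P x) : VP P (x ^ 2 / 2) := by
  have := hP.1.1
  by_cases hx0 : x = 0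
  · rw [hx0]
    simpa using DI.VP.zero (P := P)
  obtain ⟨σ, hσ, hσG⟩ := exists_sig (n := n) (t := t) hP
  have hσw := not_GK hσG
  have hσσ : σ * σ ∈ GK n t := by
    rw [mem_GK_iff, AlgEquiv.mul_apply, hσw, map_neg, hσw, neg_neg]
  have hσx : σ (σ x) = x := hf (σ * σ) (mul_mem hσ hσ) hσσ
  have hVσ : VP P (σ x) := DI.VP.inertia_vp hσ hx.vp
  have hfix : ∀ τ ∈ P.inertia Gal(Om/ℚ), τ (x * σ x) = x * σ x := by
    intro τ hτ
    by_cases hG : τ ∈ GK n t
    · have h1 : σ⁻¹ * τ * σ ∈ GK n t := by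
        rw [mem_GK_iff, AlgEquiv.mul_apply, AlgEquiv.mul_apply, hσw, map_neg, mem_GK_iff.1 hG, ← hσw]
        exact AlgEquiv.symm_apply_apply σ _
      have h2 := hf (σ⁻¹ * τ * σ) (mul_mem (mul_mem (inv_mem hσ) hτ) hσ) h1
      have h3 : τ (σ x) = σ x := by
        have h4 := congrArg σ h2
        rw [AlgEquiv.mul_apply, AlgEquiv.mul_apply] at h4
        rwa [show σ (σ⁻¹ (τ (σ x))) = τ (σ x) from AlgEquiv.apply_symm_apply σ _] at h4
      rw [map_mul, hf τ hτ hG, h3]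
    · have hτw := not_GK hG
      have h1 : σ⁻¹ * τ ∈ GK n t := by
        rw [mem_GK_iff, AlgEquiv.mul_apply, hτw, ← hσw]
        exact AlgEquiv.symm_apply_apply σ _
      have h2 : τ x = σ x := by
        have h4 := congrArg σ (hf (σ⁻¹ * τ) (mul_mem (inv_mem hσ) hτ) h1)
        rw [AlgEquiv.mul_apply] at h4
        rwa [show σ (σ⁻¹ (τ x)) = τ x from AlgEquiv.apply_symm_apply σ _] at h4
      have h3 : τ * σ ∈ GK n t := by
        rw [mem_GK_iff, AlgEquiv.mul_apply, hσw, map_neg, hτw, neg_neg]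
      have h4 : τ (σ x) = x := hf (τ * σ) (mul_mem hτ hσ) h3
      rw [map_mul, h2, h4, mul_comm]
  have h2 : MP P ((2 : ℕ) : Om) := by
    rw [Nat.cast_ofNat]
    exact hP.2
  obtain ⟨y, hy, hxy⟩ := aUnI P 2 hP.1 Nat.prime_two h2 (x * σ x) hfix (DI.MP.mul_right hx hVσ)
  rw [Nat.cast_ofNat] at hxy
  have hσx0 : σ x ≠ 0 := fun h => hx0 (by
    rw [← hσx, h, map_zero])
  have hu : σ (x / σ x) = (x / σ x)⁻¹ := by
    rw [map_div₀, hσx, inv_div]
  have hV : VP P (x / σ x) := by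
    rcases DI.VP.or_vp_inv (P := P) (x / σ x) with h | h
    · exact h
    · have h3 := DI.VP.inertia_vp hσ h
      rwa [map_inv₀, hu, inv_inv] at h3
  have e : x ^ 2 / 2 = y * (x / σ x) := by
    have h3 : y = x * σ x / 2 := by
      rw [hxy]
      field_simp
    rw [h3]
    field_simp
  rw [e]
  exact hy.mul hV

end

end Pool.Agent.DR
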