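import Pool.Agent.Lib.DR.E.Half
import Pool.Agent.Lib.DR.E.AllB

/-!
# Theorem DR: `A1` has the valuation `1/2` above `2` (author helper39)

`S_R2a`: the first half of `S_R2` (good reduction above `2`, `MP P (a1O b)`), `S_R2b`: `a1O b ^ 2 / 2` is a unit.
PROOF. `a1O b`, `a3O b` and `X(T)`, `T` of order `pp`, are fixed by the inertia elements of `Gal(Om/K)`; `half`.
-/

set_option autoImplicit false

open scoped Pointwise nonZeroDivisors

noncomputable section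

namespace Pool.Agent.DR

open Pool.Agent.MuZ Pool.Agent.FW NumberField IsDedekindDomain Pool.Agent.DN
open Pool.Agent.DI (io ofC io_inj exists_io io_ofC ofC_io VP MP UP TP ex)

/-- Good reduction above `2`, `A1` is in the maximal ideal. -/
def S_R2a : Prop :=
  ∀ (n t : ℕ) [Rmf n t] (P : Ideal ZZ), Ab2 P → GQ n t P ∧ ∀ b : Ideal (OO n t), G15 b → MP P (a1O b)

/-- `A1` has the valuation `1/2`. -/
def S_R2b : Prop :=
  ∀ (n t : ℕ) [Rmf n t] (P : Ideal ZZ), Ab2 P → ∀ b : Ideal (OO n t), G15 b → UP P (a1O b ^ 2 / 2)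

section

variable {n t : ℕ} [Rmf n t] {P : Ideal ZZ} {b : Ideal (OO n t)}

theorem fx_a1 (h4 : S_E4a) (hP : Ab2 P) (hb : G15 b) : Fx n t P (a1O b) := by
  intro τ hτ hG
  have h := (h4 n t P hP τ hG hτ 15 (by decide) (dvd_refl 15)).a1 b hb.ne hb.cop
  rwa [Ideal.top_mul] at h

theorem fx_a3 (h4 : S_E4a) (hP : Ab2 P) (hb : G15 b) : Fx n t P (a3O b) := by
  intro τ hτ hG
  have h := (h4 n t P hP τ hG hτ 15 (by decide) (dvd_refl 15)).a3 b hb.ne hb.cop
  rwa [Ideal.top_mul] at h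

/-- The inertia elements of `Gal(Om/K)` act on the points of order `30` by an element `1` modulo `15`. -/
theorem ine_psi (h1 : DS.S_E1) (h4 : S_E4a) (hP : Ab2 P) {τ : Gal(Om/ℚ)} (hτ : τ ∈ P.inertia Gal(Om/ℚ))
    (hG : τ ∈ GK n t) : ∃ y : OO n t, y ≠ 0 ∧ Cop y 2 ∧ (15 : OO n t) ∣ y - 1 ∧ Psi τ 30 (sp y) := by
  have hPf : Psi τ 15 (⊤ : Ideal (OO n t)) := h4 n t P hP τ hG hτ 15 (by decide) (dvd_refl 15)
  obtain ⟨a, ha⟩ := (h1 n t 30 (by norm_num) (by norm_num)).1 τ hG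
  have haf : Psi τ 15 a := Eb.psi_level ha (by norm_num)
  obtain ⟨α, α', hα0, hα'0, hcα, -, hd, he⟩ :=
    (h1 n t 15 (by norm_num) (by norm_num)).2.1 τ a ⊤ haf hPf
  rw [Ideal.mul_top] at he
  have hm : α' ∈ sp α * a := by
    rw [he]
    exact Ideal.mem_span_singleton_self α'
  obtain ⟨y, -, hy⟩ := Ideal.mem_span_singleton_mul.1 hm
  have hay : a = sp y := by
    rw [← hy] at he
    have h5 : sp α * a = sp α * sp y := by
      rw [he]
      exact (Ideal.span_singleton_mul_span_singleton α y).symm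
    exact (Ideal.span_singleton_mul_right_inj hα0).1 h5
  have hy0 : y ≠ 0 := by
    rintro rfl
    exact hα'0 (by rw [← hy, mul_zero])
  have hfy : ((15 : ℕ) : OO n t) ∣ y - 1 := by
    obtain ⟨β, -, hβ⟩ := cop_inv hcα
    have h6 : y - 1 = -β * (α - α') - (α * β - 1) * (y - 1) := by
      rw [← hy]
      ring
    rw [h6]
    exact dvd_sub (hd.mul_left _) (hβ.mul_right _)
  have hcy : Cop y 2 := by
    refine ((aO6 n t).2.2.2.1 2 y two_pos).1 ?_
    rw [← hay]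
    exact Eb.pri_dvd (Eb.psi_pri ha) (by norm_num)
  exact ⟨y, hy0, hcy, by exact_mod_cast hfy, by rwa [← hay]⟩

/-- Multiplication by an odd element on the points of order two. -/
theorem odd_lam {y : OO n t} (hc : Cop y 2) {T : ℂ} (h2 : 2 * T ∈ Lam b) (h : toC y * T ∈ Lam b) :
    T ∈ Lam b := by
  obtain ⟨β, -, u, hu⟩ := cop_inv hc
  have e : T = toC β * (toC y * T) - toC u * (2 * T) := by
    have h3 : toC y * toC β - 1 = 2 * toC u := by
      have h4 := congrArg toC hu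
      rw [toC_sub, toC_mul, toC_mul, toC_one, toC_nat] at h4
      exact_mod_cast h4
    linear_combination (-T) * h3
  rw [e]
  exact lam_sub (lam_mul _ h) (lam_mul _ h2)

/-- `X(T)`, `T` of order `pp`, is fixed by the inertia elements of `Gal(Om/K)`. -/
theorem fx_T (hX : DS.S_XOm) (h1 : DS.S_E1) (h4 : S_E4a) (hL6 : S_L6) (hP : Ab2 P) (hb : G15 b)
    {T : ℂ} (hT : T ∈ Lam (pp n t * b)) (hT' : T ∉ Lam b) : Fx n t P (xO b T) := by
  intro τ hτ hG
  obtain ⟨y, hy0, hcy, hy15, hψ⟩ := ine_psi h1 h4 hP hτ hG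
  obtain ⟨-, l2, l3, -⟩ := hL6 n t b hb.ne
  have h2T : 2 * T ∈ Lam b := l3 T hT
  have hyT : toC y * T ∈ Lam (pp n t * b) := lam_mul _ hT
  have hyT' : toC y * T ∉ Lam b := fun h => hT' (odd_lam hcy h2T h)
  have h5 := hψ.xx b hb.ne hb.cop T (by
    have e : ((30 : ℕ) : ℂ) * T = ((15 : ℕ) : ℂ) * (2 * T) := by
      push_cast
      ring
    rw [e]
    exact lam_nat 15 h2T)
  have h3 : (3 : OO n t) ∣ y - 1 := Dvd.dvd.trans ⟨5, by norm_num⟩ hy15
  have h5' : (5 : OO n t) ∣ y - 1 := Dvd.dvd.trans ⟨3, by norm_num⟩ hy15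
  rw [h5, ((hX n t b hb).hom y hy0 h3 (Or.inl h5')).2.2 T |>.1]
  exact ((hX n t b hb).cng _ _ (l2 _ hyT _ hT hyT' hT')).1

end

private theorem key0 {y c A : Om} (hy0 : y ≠ 0) (h : y ^ 3 = c * (y + A) ^ 2) :
    y = c * (1 + A * y⁻¹) ^ 2 := by
  field_simp
  linear_combination h

/-- The algebra: `v(A1) ≥ 3/4` implies `v(X(T)) = -2/3` for the points of order two. -/
private theorem key {P : Ideal ZZ} (hP : Ab2 P) {A B x : Om} (hA : UP P A)
    (hB8 : VP P (B ^ 4 / 8)) (hx : 4 * x ^ 3 + (B * x + A) ^ 2 = 0) :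
    UP P (4 * x ^ 3) := by
  have := hP.1.1
  -- `ε = B ^ 3 / 4`
  have hε : MP P (B ^ 3 / 4) := by
    refine DI.MP.of_pow (n := 4) ?_
    have e : (B ^ 3 / 4) ^ 4 = 2 * (B ^ 4 / 8) ^ 3 := by ring
    rw [e]
    exact DI.MP.mul_right hP.2 (hB8.pow 3)
  have hy : (B * x) ^ 3 = -(B ^ 3 / 4) * (B * x + A) ^ 2 := by
    linear_combination (B ^ 3 / 4) * hx
  have hV : VP P (B * x) := by
    by_contra hn
    obtain ⟨h0, h1⟩ := DI.VP.not_iff.1 hn
    apply hn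
    rw [key0 h0 hy]
    exact (hε.neg.vp).mul ((DI.VP.one.add (hA.1.mul h1.vp)).pow 2)
  have hM : MP P (B * x) := by
    refine DI.MP.of_pow (n := 3) ?_
    rw [hy]
    exact DI.MP.mul_right hε.neg ((hV.add hA.1).pow 2)
  have hU : UP P (B * x + A) := DI.UP.congr hA (by rw [add_sub_cancel_right]; exact hM)
  have e : 4 * x ^ 3 = -(B * x + A) ^ 2 := by linear_combination hx
  rw [e]
  exact (hU.pow 2).neg

theorem sR2b (hX : DS.S_XOm) (h1 : DS.S_E1) (h4 : S_E4a) (hL6 : S_L6) (hR : S_R2a) : S_R2b := by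
  intro n t _ P hP b hb
  have := hP.1.1
  obtain ⟨hQ, ha⟩ := hR n t P hP
  have hXb := hX n t b hb
  obtain ⟨-, hA, -⟩ := hQ.2 b hb
  have f1 : Fx n t P (a1O b) := fx_a1 h4 hP hb
  have hV : VP P (a1O b ^ 2 / 2) := half (n := n) (t := t) hP f1 (ha b hb)
  refine ⟨hV, fun hM => ?_⟩
  have hV2 : VP P ((a1O b ^ 2 / 2) ^ 2 / 2) := half (n := n) (t := t) hP ((f1.pow 2).div Fx.two) hM
  have hV8 : VP P (a1O b ^ 4 / 8) := by
    have e : a1O b ^ 4 / 8 = (a1O b ^ 2 / 2) ^ 2 / 2 := by ring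
    rwa [e]
  obtain ⟨⟨T, hT, hT'⟩, -, l3, -⟩ := hL6 n t b hb.ne
  have h2T : 2 * T ∈ Lam b := l3 T hT
  have htor : Tor n t T := (tor_iff hb.ne).2 ⟨2, two_pos, by exact_mod_cast h2T⟩
  have hfT := fx_T hX h1 h4 hL6 hP hb hT hT'
  have hcrv : 4 * xO b T ^ 3 + (a1O b * xO b T + a3O b) ^ 2 = 0 := by
    rw [← hXb.crv T htor hT', (hXb.two T htor hT').2 h2T]
    ring
  set x := xO b T with hx
  have hU := key hP hA hV8 hcrv
  have hM2 : MP P (2 * x) := by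
    refine DI.MP.of_pow (n := 3) ?_
    have e : (2 * x) ^ 3 = 2 * (4 * x ^ 3) := by ring
    rw [e]
    exact DI.MP.mul_right hP.2 hU.1
  have h5 : VP P ((2 * x) ^ 2 / 2) := half (n := n) (t := t) hP (Fx.two.mul hfT) hM2
  -- its cube is `(4 x ^ 3) ^ 2 / 2`
  have h6 : VP P ((4 * x ^ 3) ^ 2 / 2) := by
    have e : (4 * x ^ 3) ^ 2 / 2 = ((2 * x) ^ 2 / 2) ^ 3 := by ring
    rw [e]
    exact h5.pow 3
  have h7 : (4 * x ^ 3) ^ 2 = 2 * ((4 * x ^ 3) ^ 2 / 2) := by ring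
  have h8 : MP P ((4 * x ^ 3) ^ 2) := by
    rw [h7]
    exact DI.MP.mul_right hP.2 h6
  exact (hU.pow 2).2 h8

/-- `S_R2`, from `S_R2a` and the statement on good reduction at almost all primes. -/
theorem sR2 (hGQ : DS.S_GQB) (hR : S_R2a) (hRb : S_R2b) : S_R2 := by
  intro n t _
  exact ⟨fun P hP => ⟨(hR n t P hP).1, fun b hb => hRb n t P hP b hb⟩, hGQ n t⟩

end Pool.Agent.DR
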